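import Pool.Agent.U463.RS.LSuff
import Pool.Agent.U463.RS.Main

/-!
# Logarithmic averages: from the blocks to the limit
-/

set_option autoImplicit false

namespace Pool.Agent.U463.RS

open Finset Polynomial MeasureTheory Filter Pool.Agent.H220M
open scoped ENNReal

open Classical in
/-- the bad blocks at the scale `i` -/
noncomputable def badb (a : ℕ → ℝ) (i D : ℕ) : Finset ℕ :=
  ((range (2 ^ (i + 1))).filter (fun j => 2 ^ i ≤ 2 ^ D * j)).filter
    (fun j => 2 * (1 / ((D : ℝ) + 1)) < |bs a j|)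

/-- the deterministic part -/
theorem llim (a : ℕ → ℝ) (ha : ∀ m, |a m| ≤ 1)
    (H : ∀ D : ℕ, ∀ᶠ i : ℕ in atTop, (badb a i D).card < 2 ^ (i - D)) :
    Tendsto (fun x : ℕ => (∑ m ∈ range x, a m / ((m : ℝ) + 1)) / Real.log x) atTop (nhds 0) := by
  classical
  rw [Metric.tendsto_atTop]
  intro δ hδ
  obtain ⟨D, hD⟩ : ∃ D : ℕ, 16 / δ < D := exists_nat_gt _
  obtain ⟨i₀, hi₀⟩ := eventually_atTop.1 ((H D).and (eventually_ge_atTop D))
  obtain ⟨M, hM⟩ : ∃ M : ℕ, 4 / δ < M := exists_nat_gt _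
  refine ⟨2 ^ (2 ^ i₀ + M + 1), fun x hx => ?_⟩
  obtain ⟨J, hJ⟩ : ∃ J, J = Nat.log 2 x := ⟨_, rfl⟩
  have hJ1 : 2 ^ i₀ + M + 1 ≤ J := by
    rw [hJ]; exact Nat.le_log_of_pow_le (by norm_num) hx
  have hp0 : 0 < 2 ^ i₀ := by positivity
  have hx0 : x ≠ 0 := by
    have : 0 < 2 ^ (2 ^ i₀ + M + 1) := by positivity
    omega
  have hJx : 2 ^ J ≤ x := by rw [hJ]; exact Nat.pow_log_le_self 2 hx0
  have hxJ : x < 2 ^ (J + 1) := by rw [hJ]; exact Nat.lt_pow_succ_log_self (by norm_num) x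
  obtain ⟨i, hi⟩ : ∃ i, i = Nat.log 2 J := ⟨_, rfl⟩
  have hJ0 : J ≠ 0 := by omega
  have hi1 : i₀ ≤ i := by
    rw [hi]; exact Nat.le_log_of_pow_le (by norm_num) (by omega)
  have hiJ : 2 ^ i ≤ J := by rw [hi]; exact Nat.pow_log_le_self 2 hJ0
  have hJi : J < 2 ^ (i + 1) := by rw [hi]; exact Nat.lt_pow_succ_log_self (by norm_num) J
  obtain ⟨hbad, hDi⟩ := hi₀ i hi1
  -- the complete blocks
  have h1 : |∑ j ∈ range J, bs a j| ≤ 2 * 2 ^ (i - D) + 2 * (1 / ((D : ℝ) + 1)) * J := by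
    refine (abs_sum_le_sum_abs _ _).trans ?_
    have h2 : ∀ j ∈ range J, |bs a j| ≤ (if 2 ^ D * j < 2 ^ i then (1:ℝ) else 0) +
        ((if j ∈ badb a i D then (1:ℝ) else 0) + 2 * (1 / ((D : ℝ) + 1))) := by
      intro j hj
      rw [mem_range] at hj
      have hp : (0:ℝ) ≤ 2 * (1 / ((D : ℝ) + 1)) := by positivity
      have hb := bs_le a ha j
      by_cases c1 : 2 ^ D * j < 2 ^ i
      · rw [if_pos c1]
        split_ifs <;> linarith
      · rw [if_neg c1]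
        by_cases c2 : j ∈ badb a i D
        · rw [if_pos c2]; linarith
        · rw [if_neg c2]
          unfold badb at c2
          rw [mem_filter, mem_filter, mem_range] at c2
          have c3 : ¬ (2 * (1 / ((D : ℝ) + 1)) < |bs a j|) := fun hh =>
            c2 ⟨⟨by omega, not_lt.1 c1⟩, hh⟩
          have := not_lt.1 c3
          linarith
    refine (sum_le_sum h2).trans ?_
    rw [sum_add_distrib, sum_add_distrib, sum_const, card_range, nsmul_eq_mul]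
    have h3 : ∑ j ∈ range J, (if 2 ^ D * j < 2 ^ i then (1:ℝ) else 0) ≤ 2 ^ (i - D) := by
      rw [← sum_filter, sum_const, nsmul_eq_mul, mul_one]
      have h4 : (range J).filter (fun j => 2 ^ D * j < 2 ^ i) ⊆ range (2 ^ (i - D)) := by
        intro j hj
        rw [mem_filter] at hj
        rw [mem_range]
        have e : 2 ^ i = 2 ^ D * 2 ^ (i - D) := by rw [← pow_add]; congr 1; omega
        rw [e] at hj
        exact Nat.lt_of_mul_lt_mul_left hj.2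
      have h5 := card_le_card h4
      rw [card_range] at h5
      exact_mod_cast h5
    have h4 : ∑ j ∈ range J, (if j ∈ badb a i D then (1:ℝ) else 0) ≤ 2 ^ (i - D) := by
      rw [← sum_filter, sum_const, nsmul_eq_mul, mul_one]
      have h5 : (range J).filter (fun j => j ∈ badb a i D) ⊆ badb a i D := by
        intro j hj
        rw [mem_filter] at hj
        exact hj.2
      have h6 := (card_le_card h5).trans hbad.le
      exact_mod_cast h6
    linarith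
  -- the incomplete block
  have h6 : |∑ m ∈ Ico (2 ^ J - 1) x, a m / ((m : ℝ) + 1)| ≤ 1 := by
    refine (abs_sum_le_sum_abs _ _).trans ?_
    have h7 : ∀ m ∈ Ico (2 ^ J - 1) x, |a m / ((m : ℝ) + 1)| ≤ 1 / 2 ^ J := by
      intro m hm
      rw [mem_Ico] at hm
      have h0 : (0:ℝ) < (m:ℝ) + 1 := by positivity
      rw [abs_div, abs_of_pos h0]
      have h2 : 2 ^ J ≤ m + 1 := by omega
      have h3 : (2:ℝ) ^ J ≤ (m:ℝ) + 1 := by exact_mod_cast h2
      exact div_le_div₀ zero_le_one (ha m) (by positivity) h3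
    refine (sum_le_sum h7).trans ?_
    rw [sum_const, Nat.card_Ico, nsmul_eq_mul]
    have h8 : x - (2 ^ J - 1) ≤ 2 ^ J := by rw [pow_succ] at hxJ; omega
    have h9 : ((x - (2 ^ J - 1) : ℕ) : ℝ) ≤ 2 ^ J := by exact_mod_cast h8
    rw [mul_one_div, div_le_one (by positivity)]
    exact h9
  have h10 : ∑ m ∈ range x, a m / ((m : ℝ) + 1) = ∑ j ∈ range J, bs a j +
      ∑ m ∈ Ico (2 ^ J - 1) x, a m / ((m : ℝ) + 1) := by
    rw [← log_sum, range_eq_Ico, range_eq_Ico, sum_Ico_consecutive _ (Nat.zero_le _) (by omega)]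
  -- the logarithm
  have hlog : (J : ℝ) / 2 ≤ Real.log x := by
    have h11 : Real.log ((2:ℝ) ^ J) ≤ Real.log x :=
      Real.log_le_log (by positivity) (by exact_mod_cast hJx)
    rw [Real.log_pow] at h11
    have h12 := Real.log_two_gt_d9
    have h13 : (0:ℝ) ≤ J := Nat.cast_nonneg _
    nlinarith
  have hJpos : (0:ℝ) < J := by
    have : 0 < J := by omega
    exact_mod_cast this
  have hlogpos : 0 < Real.log x := by linarith
  rw [Real.dist_eq, sub_zero, abs_div, abs_of_pos hlogpos, div_lt_iff₀ hlogpos, h10]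
  refine lt_of_le_of_lt ((abs_add_le _ _).trans (add_le_add h1 h6)) ?_
  -- numerics
  have hD1 : (D : ℝ) + 1 ≤ 2 ^ D := by
    have : D + 1 ≤ 2 ^ D := Nat.lt_two_pow_self
    exact_mod_cast this
  have hDpos : (0:ℝ) < (D:ℝ) + 1 := by positivity
  have n1 : (2:ℝ) ^ (i - D) * ((D:ℝ) + 1) ≤ J := by
    have e : (2:ℝ) ^ i = 2 ^ (i - D) * 2 ^ D := by rw [← pow_add]; congr 1; omega
    have h20 : (2:ℝ) ^ i ≤ J := by exact_mod_cast hiJ
    have h21 : (2:ℝ) ^ (i - D) * ((D:ℝ) + 1) ≤ 2 ^ (i - D) * 2 ^ D :=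
      mul_le_mul_of_nonneg_left hD1 (by positivity)
    linarith
  have n2 : (2:ℝ) ^ (i - D) ≤ J * (1 / ((D:ℝ) + 1)) := by
    rw [mul_one_div, le_div_iff₀ hDpos]; exact n1
  have n3 : 1 / ((D:ℝ) + 1) < δ / 16 := by
    rw [div_lt_iff₀ hδ] at hD
    rw [div_lt_div_iff₀ hDpos (by norm_num)]
    nlinarith
  have n4 : 1 < δ / 4 * J := by
    have h22 : (M:ℝ) ≤ J := by
      have : M ≤ J := by omega
      exact_mod_cast this
    rw [div_lt_iff₀ hδ] at hM
    nlinarith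
  have n5 : (J:ℝ) * (1 / ((D:ℝ) + 1)) ≤ J * (δ / 16) := mul_le_mul_of_nonneg_left n3.le hJpos.le
  have n6 : δ * (J / 2) ≤ δ * Real.log x := mul_le_mul_of_nonneg_left hlog hδ.le
  nlinarith

open Classical in
/-- one value of `D` -/
theorem lone (g : ℕ → ℤˣ) (Q : Set ℕ)
    (hQ : ∀ q ∈ Q, q.Prime) (F : ℤ[X]) (w : ℕ → ℝ) (hw : ∀ m, |w m| ≤ 1)
    (hT : Heavy3 {q | q ∈ Q ∧ SimpleRoot F q}) (D : ℕ) :
    ∀ᵐ ω ∂coins, ∀ᶠ i : ℕ in atTop, (badb (fun m => w m *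
      (((modif g Q ω ((F.eval ((m : ℤ) + 1)).natAbs) : ℤˣ) : ℤ) : ℝ)) i D).card < 2 ^ (i - D) := by
  obtain ⟨η, hη'⟩ : ∃ η : ℝ, η = 1 / ((D : ℝ) + 1) := ⟨_, rfl⟩
  have hη : 0 < η := by rw [hη']; positivity
  obtain ⟨K, hK⟩ : ∃ K : ℕ, 64 * (F.natDegree : ℝ) ^ 2 / η ^ 2 ≤ K := exists_nat_ge _
  have hK' : 64 * (F.natDegree : ℝ) ^ 2 / η ^ 2 ≤ ((K + 1 : ℕ) : ℝ) := by
    push_cast; linarith
  have h1 := heavy3_cut {q | q ∈ Q ∧ SimpleRoot F q} hT D (K + 1)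
    (2 + 4 * ((F.natDegree : ℝ) + 2) ^ 2 / η)
  obtain ⟨i₀, hi₀⟩ := eventually_atTop.1 (h1.and (eventually_ge_atTop (D + 1)))
  obtain ⟨E, hE⟩ : ∃ E : ℕ → Set (ℕ → Bool), E = fun j =>
    {ω : ℕ → Bool | 2 * η < |bs (fun m => w m *
      (((modif g Q ω ((F.eval ((m : ℤ) + 1)).natAbs) : ℤˣ) : ℤ) : ℝ)) j|} := ⟨_, rfl⟩
  have hEm : ∀ j, MeasurableSet (E j) := by
    intro j
    rw [hE]
    refine measurableSet_lt measurable_const ?_
    refine (continuous_abs.measurable).comp ?_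
    unfold bs
    refine Finset.measurable_sum _ fun m _ => ?_
    exact ((measurable_modif_real g Q _).const_mul (w m)).div_const _
  have hEj : ∀ i, i₀ ≤ i → ∀ j, 2 ^ i ≤ 2 ^ D * j →
      coins (E j) ≤ ENNReal.ofReal (2 * (1 / (i : ℝ) ^ 2)) := by
    intro i hi j hj
    obtain ⟨c1, c3⟩ := hi₀ i hi
    rw [hE]
    exact lscale g Q hQ F _ (fun q hq => hq) w hw η hη (K + 1) (Nat.succ_pos _) hK' i j
      (by omega) (c1 j hj)
  obtain ⟨T, hT'⟩ : ∃ T : ℕ → Finset ℕ, T = fun i => (range (2 ^ (i + 1))).filter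
    (fun j => 2 ^ i ≤ 2 ^ D * j) := ⟨_, rfl⟩
  obtain ⟨X, hX⟩ : ∃ X : ℕ → (ℕ → Bool) → ℝ≥0∞, X = fun i ω =>
    ∑ j ∈ T i, (E j).indicator (fun _ => (1 : ℝ≥0∞)) ω := ⟨_, rfl⟩
  have hXm : ∀ i, Measurable (X i) := by
    intro i
    rw [hX]
    exact Finset.measurable_sum _ fun j _ => measurable_const.indicator (hEm j)
  have hXc : ∀ i ω, X i ω = (((badb (fun m => w m *
      (((modif g Q ω ((F.eval ((m : ℤ) + 1)).natAbs) : ℤˣ) : ℤ) : ℝ)) i D).card : ℕ) : ℝ≥0∞) := by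
    intro i ω
    rw [hX]
    unfold badb
    rw [card_filter, Nat.cast_sum, hT']
    refine sum_congr rfl fun j _ => ?_
    rw [hE, hη']
    by_cases hb : 2 * (1 / ((D : ℝ) + 1)) < |bs (fun m => w m *
      (((modif g Q ω ((F.eval ((m : ℤ) + 1)).natAbs) : ℤˣ) : ℤ) : ℝ)) j|
    · rw [if_pos hb, Set.indicator_of_mem (by exact hb)]
      simp
    · rw [if_neg hb, Set.indicator_of_notMem (by exact hb)]
      simp
  have hprob : ∀ i, i₀ ≤ i → coins {ω | ((2 ^ (i - D) : ℕ) : ℝ≥0∞) ≤ X i ω} ≤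
      ENNReal.ofReal (2 ^ (D + 2) * (1 / (i : ℝ) ^ 2)) := by
    intro i hi
    have hDi := (hi₀ i hi).2
    have m1 := mul_meas_ge_le_lintegral (μ := coins) (hXm i) ((2 ^ (i - D) : ℕ) : ℝ≥0∞)
    have m2 : ∫⁻ ω, X i ω ∂coins ≤ ENNReal.ofReal (2 ^ (i + 1) * (2 * (1 / (i : ℝ) ^ 2))) := by
      rw [hX]
      rw [lintegral_finsetSum]
      · have m3 : ∀ j ∈ T i, ∫⁻ ω, (E j).indicator (fun _ => (1 : ℝ≥0∞)) ω ∂coins ≤
            ENNReal.ofReal (2 * (1 / (i : ℝ) ^ 2)) := by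
          intro j hj
          rw [lintegral_indicator (hEm j)]
          simp only [lintegral_const, MeasurableSet.univ, Measure.restrict_apply, Set.univ_inter,
            one_mul]
          rw [hT', mem_filter] at hj
          exact hEj i hi j hj.2
        refine (sum_le_sum m3).trans ?_
        rw [sum_const, nsmul_eq_mul,
          ENNReal.ofReal_mul (p := (2:ℝ) ^ (i + 1)) (by positivity)]
        refine mul_le_mul' ?_ le_rfl
        have m4 : (T i).card ≤ 2 ^ (i + 1) := by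
          rw [hT']
          exact (card_filter_le _ _).trans (le_of_eq (card_range _))
        have m5 : ENNReal.ofReal ((2:ℝ) ^ (i + 1)) = ((2 ^ (i + 1) : ℕ) : ℝ≥0∞) := by
          rw [← ENNReal.ofReal_natCast]; push_cast; rfl
        rw [m5]
        exact_mod_cast m4
      · intro j _
        exact measurable_const.indicator (hEm j)
    have m6 := m1.trans m2
    have e1 : (2:ℝ) ^ (i + 1) * (2 * (1 / (i : ℝ) ^ 2)) =
        ((2 ^ (i - D) : ℕ) : ℝ) * (2 ^ (D + 2) * (1 / (i : ℝ) ^ 2)) := by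
      push_cast
      have : (2:ℝ) ^ (i + 1) * 2 = 2 ^ (i - D) * 2 ^ (D + 2) := by
        rw [← pow_succ, ← pow_add]; congr 1; omega
      rw [← mul_assoc, this]; ring
    rw [e1, ENNReal.ofReal_mul (Nat.cast_nonneg _), ENNReal.ofReal_natCast] at m6
    refine (ENNReal.mul_le_mul_iff_right ?_ (ENNReal.natCast_ne_top _)).1 m6
    have : (2 ^ (i - D) : ℕ) ≠ 0 := by positivity
    exact_mod_cast this
  have hBC := ae_eventually_notMem (μ := coins) (s := fun i => if i₀ ≤ i then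
      {ω | ((2 ^ (i - D) : ℕ) : ℝ≥0∞) ≤ X i ω} else ∅) (by
    have hle : ∀ i : ℕ, coins (if i₀ ≤ i then {ω | ((2 ^ (i - D) : ℕ) : ℝ≥0∞) ≤ X i ω} else ∅) ≤
        ENNReal.ofReal (2 ^ (D + 2) * (1 / (i : ℝ) ^ 2)) := by
      intro j
      split_ifs with h
      · exact hprob j h
      · rw [measure_empty]; exact bot_le
    have hsum : Summable (fun j : ℕ => (2 : ℝ) ^ (D + 2) * (1 / (j : ℝ) ^ 2)) :=
      (Real.summable_one_div_nat_pow.2 (by norm_num)).mul_left _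
    refine ne_top_of_le_ne_top ?_ (ENNReal.tsum_le_tsum hle)
    rw [← ENNReal.ofReal_tsum_of_nonneg (fun j => by positivity) hsum]
    exact ENNReal.ofReal_ne_top)
  filter_upwards [hBC] with ω hω
  filter_upwards [hω, eventually_ge_atTop i₀] with i hi hii
  rw [if_pos hii] at hi
  by_contra hc
  push Not at hc
  apply hi
  simp only [Set.mem_ofPred_eq]
  rw [hXc]
  exact_mod_cast hc

/-- **almost sure cancellation at the values of a polynomial**, logarithmic averages -/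
theorem las_main (g : ℕ → ℤˣ) (Q : Set ℕ) (hQ : ∀ q ∈ Q, q.Prime) (F : ℤ[X]) (w : ℕ → ℝ)
    (hw : ∀ m, |w m| ≤ 1) (hT : Heavy3 {q | q ∈ Q ∧ SimpleRoot F q}) :
    ∀ᵐ ω ∂coins, Tendsto (fun x : ℕ => (∑ m ∈ range x, w m / ((m : ℝ) + 1) *
      (((modif g Q ω ((F.eval ((m : ℤ) + 1)).natAbs) : ℤˣ) : ℤ) : ℝ)) / Real.log x)
        atTop (nhds 0) := by
  have h1 : ∀ᵐ ω ∂coins, ∀ D : ℕ, ∀ᶠ i : ℕ in atTop, (badb (fun m => w m *
      (((modif g Q ω ((F.eval ((m : ℤ) + 1)).natAbs) : ℤˣ) : ℤ) : ℝ)) i D).card < 2 ^ (i - D) := by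
    rw [ae_all_iff]
    exact fun D => lone g Q hQ F w hw hT D
  filter_upwards [h1] with ω hω
  have h2 := llim (fun m => w m *
      (((modif g Q ω ((F.eval ((m : ℤ) + 1)).natAbs) : ℤˣ) : ℤ) : ℝ)) (fun m => by
    show |w m * (((modif g Q ω ((F.eval ((m : ℤ) + 1)).natAbs) : ℤˣ) : ℤ) : ℝ)| ≤ 1
    rw [abs_mul, M6.unit_abs, mul_one]
    exact hw m) hω
  refine h2.congr fun x => ?_
  congr 1
  refine sum_congr rfl fun m _ => ?_
  ring

open Classical in
theorem las_weight (g : ℕ →*₀ ℤ) (g' : ℕ → ℤˣ) (hg' : ∀ m : ℕ, m ≠ 0 → g m = g' m)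
    (Q : Set ℕ) (hQp : ∀ q ∈ Q, q.Prime) (F : ℤ[X]) (hF : Heavy3 {q | q ∈ Q ∧ SimpleRoot F q})
    (v : ℕ → ℝ) (hv : ∀ n, |v n| ≤ 1) :
    ∀ᵐ ω ∂coins, ∀ f : ℕ →*₀ ℤ, IsModif g Q ω f →
      Tendsto (fun x : ℕ => (∑ n ∈ Icc 1 x, v n / n *
        ((f ((F.eval (n : ℤ)).natAbs) : ℤ) : ℝ)) / Real.log x) atTop (nhds 0) := by
  set w : ℕ → ℝ := fun m => if F.eval ((m : ℤ) + 1) = 0 then 0 else v (m + 1) with hw
  have hw1 : ∀ m, |w m| ≤ 1 := by
    intro m
    simp only [hw]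
    split_ifs
    · simp
    · exact hv _
  filter_upwards [las_main g' Q hQp F w hw1 hF] with ω hω f hf
  obtain ⟨f', hf', hfm⟩ := isModif_exists g g' hg' Q ω
  have hff : f = f' := isModif_unique g Q ω f f' hf hf'
  subst hff
  refine hω.congr fun x => ?_
  rw [sum_eq F f (modif g' Q ω) hfm (fun m => w m / ((m : ℝ) + 1))
    (fun m h => by simp only [hw]; rw [if_pos h, zero_div]) x]
  congr 1
  apply Finset.sum_congr rfl
  intro n hn
  have hn1 : 1 ≤ n := (Finset.mem_Icc.mp hn).1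
  have e1 : n - 1 + 1 = n := by omega
  have e2 : ((n - 1 : ℕ) : ℤ) + 1 = (n : ℤ) := by omega
  have e3 : ((n - 1 : ℕ) : ℝ) + 1 = (n : ℝ) := by exact_mod_cast e2
  simp only [hw]
  rw [e1, e2, e3]
  by_cases h0 : F.eval (n : ℤ) = 0
  · simp [h0]
  · simp only [h0, if_false]

end Pool.Agent.U463.RS
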