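import Pool.Agent.U463.RS.LSuff
import Pool.Agent.U463.RS.Nec

/-!
# Logarithmic averages: the adversary
-/

set_option autoImplicit false

namespace Pool.Agent.U463.RS

open Finset Filter Pool.Agent.H220M

theorem lnum (M J₀ J L c : ℕ) (hLJ : 2 ^ L ≤ J)
    (hJ1 : 2 ^ (2 * M + 2) + (2 * J₀ + 2) * (M + 1) ≤ J) (hc : c ≤ L / 2 + 1) :
    M * (2 ^ c + J₀) ≤ 4 * J := by
  have a1 : 2 ^ c ≤ 2 ^ (L / 2 + 1) := Nat.pow_le_pow_right (by norm_num) hc
  have a2 : (2 ^ (L / 2)) ^ 2 ≤ J := by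
    rw [← pow_mul]
    refine le_trans (Nat.pow_le_pow_right (by norm_num) ?_) hLJ
    exact Nat.div_mul_le_self L 2
  have a3 : M * 2 ^ (L / 2 + 1) ≤ 2 * J := by
    rcases Nat.lt_or_ge (L / 2) M with h | h
    · have b1 : 2 ^ (L / 2 + 1) ≤ 2 ^ (M + 1) := Nat.pow_le_pow_right (by norm_num) (by omega)
      have b2 : M ≤ 2 ^ M := Nat.lt_two_pow_self.le
      calc M * 2 ^ (L / 2 + 1) ≤ 2 ^ M * 2 ^ (M + 1) := Nat.mul_le_mul b2 b1
        _ = 2 ^ (2 * M + 1) := by rw [← pow_add]; congr 1; omega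
        _ ≤ 2 ^ (2 * M + 2) := Nat.pow_le_pow_right (by norm_num) (by omega)
        _ ≤ 2 * J := by omega
    · have b2 : M ≤ 2 ^ (L / 2) := h.trans Nat.lt_two_pow_self.le
      calc M * 2 ^ (L / 2 + 1) ≤ 2 ^ (L / 2) * 2 ^ (L / 2 + 1) := Nat.mul_le_mul_right _ b2
        _ = 2 * (2 ^ (L / 2)) ^ 2 := by rw [pow_succ]; ring
        _ ≤ 2 * J := by omega
  have a4 : M * J₀ ≤ 2 * J := by
    have h10 : M * J₀ ≤ (2 * J₀ + 2) * (M + 1) := by nlinarith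
    have h11 : (2 * J₀ + 2) * (M + 1) ≤ J := le_trans (Nat.le_add_left _ _) hJ1
    omega
  calc M * (2 ^ c + J₀) = M * 2 ^ c + M * J₀ := by ring
    _ ≤ M * 2 ^ (L / 2 + 1) + M * J₀ := by
      have := Nat.mul_le_mul_left M a1
      omega
    _ ≤ 4 * J := by omega

theorem sum_blocks (h : ℕ → ℝ) (a b : ℕ) (hab : a ≤ b) :
    ∑ j ∈ Ico a b, ∑ n ∈ Ico (2 ^ j) (2 ^ (j + 1)), h n = ∑ n ∈ Ico (2 ^ a) (2 ^ b), h n := by
  induction b, hab using Nat.le_induction with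
  | base => simp
  | succ b hab ih =>
    rw [sum_Ico_succ_top hab, ih]
    exact sum_Ico_consecutive _ (Nat.pow_le_pow_right (by norm_num) hab)
      (Nat.pow_le_pow_right (by norm_num) (Nat.le_succ b))

open Classical in
/-- the sum of `1 / n` over the free integers of a long interval -/
theorem super_sum (P : Finset ℕ) (hP : ∀ q ∈ P, q.Prime) (C κ : ℝ)
    (hC : ∑ q ∈ P, (1 : ℝ) / q ≤ C) (hκ : κ = Real.exp (-(2 * C)) / 4) (a b : ℕ)
    (hab : a ≤ b) (h2 : 2 * (a : ℝ) ≤ κ * b) :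
    κ ^ 2 / 4 * b ≤ ∑ n ∈ Ico (2 ^ a) (2 ^ b), (if ∀ q ∈ P, ¬ q ∣ n then (1 : ℝ) / n else 0) := by
  have hκ0 : 0 < κ := by rw [hκ]; positivity
  have hmany := many_blocks P hP C hC b
  rw [← hκ] at hmany
  rw [← sum_blocks _ a b hab]
  have h3 : ∀ j ∈ Ico a b, (if κ * 2 ^ j ≤ (blk P j : ℝ) then κ / 2 else 0) ≤
      ∑ n ∈ Ico (2 ^ j) (2 ^ (j + 1)), (if ∀ q ∈ P, ¬ q ∣ n then (1 : ℝ) / n else 0) := by
    intro j _
    split_ifs with hj
    · rw [← sum_filter]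
      have h4 : ∀ n ∈ (Ico (2 ^ j) (2 ^ (j + 1))).filter (fun n => ∀ q ∈ P, ¬ q ∣ n),
          (1:ℝ) / 2 ^ (j + 1) ≤ 1 / (n : ℝ) := by
        intro n hn
        rw [mem_filter, mem_Ico] at hn
        have hn0 : (0:ℝ) < n := by
          have : 0 < n := lt_of_lt_of_le (by positivity) hn.1.1
          exact_mod_cast this
        apply one_div_le_one_div_of_le hn0
        exact_mod_cast hn.1.2.le
      have h5 := sum_le_sum h4
      rw [sum_const, nsmul_eq_mul] at h5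
      refine le_trans ?_ h5
      have h6 : κ * 2 ^ j ≤ ((((Ico (2 ^ j) (2 ^ (j + 1))).filter
        (fun n => ∀ q ∈ P, ¬ q ∣ n)).card : ℕ) : ℝ) := hj
      rw [mul_one_div, le_div_iff₀ (by positivity), pow_succ]
      linarith
    · exact sum_nonneg fun n _ => by split_ifs <;> positivity
  refine le_trans ?_ (sum_le_sum h3)
  rw [← sum_filter, sum_const, nsmul_eq_mul]
  have h7 : κ * b ≤ (((Ico a b).filter (fun j => κ * 2 ^ j ≤ (blk P j : ℝ))).card : ℝ) + a := by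
    refine hmany.trans ?_
    have h8 : (range b).filter (fun j => κ * 2 ^ j ≤ (blk P j : ℝ)) ⊆
        ((Ico a b).filter (fun j => κ * 2 ^ j ≤ (blk P j : ℝ))) ∪ range a := by
      intro j hj
      rw [mem_filter, mem_range] at hj
      rw [mem_union, mem_filter, mem_Ico, mem_range]
      rcases Nat.lt_or_ge j a with h | h
      · exact Or.inr h
      · exact Or.inl ⟨⟨h, hj.1⟩, hj.2⟩
    have h9 := (card_le_card h8).trans (card_union_le _ _)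
    rw [card_range] at h9
    exact_mod_cast h9
  have h10 : κ / 2 * b ≤ (((Ico a b).filter (fun j => κ * 2 ^ j ≤ (blk P j : ℝ))).card : ℝ) := by
    linarith
  have h11 := mul_le_mul_of_nonneg_right h10 (by positivity : (0:ℝ) ≤ κ / 2)
  calc κ ^ 2 / 4 * b = κ / 2 * b * (κ / 2) := by ring
    _ ≤ _ := h11

open Classical in
/-- **one stage** -/
theorem lstage (g : ℕ → ℤˣ) (Q : Set ℕ) (hQ : ∀ q ∈ Q, q.Prime) (C κ : ℝ)
    (hκ : κ = Real.exp (-(2 * C)) / 4)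
    (hC : ∃ᶠ x : ℕ in atTop, mass3 Q x ≤ C) (J₀ : ℕ) :
    ∃ J : ℕ, J₀ < J ∧ ∃ u : ℕ → ℝ, (∀ n, |u n| ≤ 1) ∧ ∀ ω : ℕ → Bool, ∃ a b, J₀ ≤ a ∧ a < b ∧
      b ≤ J ∧ κ ^ 2 / 4 * b ≤
        |∑ n ∈ Ico (2 ^ a) (2 ^ b), u n / n * (((modif g Q ω n : ℤˣ) : ℤ) : ℝ)| := by
  have hκ0 : 0 < κ := by rw [hκ]; positivity
  -- the ratio of the exponents
  obtain ⟨ρ, hρ⟩ : ∃ ρ : ℕ, 2 / κ ≤ ρ := exists_nat_ge _
  have hρ0 : 0 < ρ := by
    have : (0:ℝ) < ρ := lt_of_lt_of_le (by positivity) hρ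
    exact_mod_cast this
  have hρ2 : 2 ≤ κ * 2 ^ ρ := by
    rw [div_le_iff₀' hκ0] at hρ
    have h1 : (ρ:ℝ) ≤ 2 ^ ρ := by
      have : ρ ≤ 2 ^ ρ := Nat.lt_two_pow_self.le
      exact_mod_cast this
    exact hρ.trans (mul_le_mul_of_nonneg_left h1 hκ0.le)
  obtain ⟨M, hM⟩ : ∃ M, M = 4 * ρ := ⟨_, rfl⟩
  obtain ⟨B, hB⟩ : ∃ B, B = 2 ^ (2 * M + 2) + (2 * J₀ + 2) * (M + 1) := ⟨_, rfl⟩
  obtain ⟨x, hx, hmass⟩ := (hC.and_eventually (eventually_ge_atTop (2 ^ (2 ^ B))))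
    |>.exists |> fun ⟨x, h1, h2⟩ => (⟨x, h2, h1⟩ : ∃ x : ℕ, 2 ^ (2 ^ B) ≤ x ∧ mass3 Q x ≤ C)
  obtain ⟨J, hJ⟩ : ∃ J, J = Nat.log 2 x := ⟨_, rfl⟩
  obtain ⟨I, hI⟩ : ∃ I, I = Nat.log 2 J := ⟨_, rfl⟩
  obtain ⟨L, hL⟩ : ∃ L, L = Nat.log 2 I := ⟨_, rfl⟩
  have hJ1 : 2 ^ B ≤ J := by
    rw [hJ]; exact Nat.le_log_of_pow_le (by norm_num) hx
  have hI1 : B ≤ I := by
    rw [hI]; exact Nat.le_log_of_pow_le (by norm_num) hJ1
  have hx0 : x ≠ 0 := by
    have : 0 < 2 ^ (2 ^ B) := by positivity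
    omega
  have hJ0 : J ≠ 0 := by
    have : 0 < 2 ^ B := by positivity
    omega
  have hB0 : 0 < B := by rw [hB]; positivity
  have hI0 : I ≠ 0 := by omega
  have hJx : 2 ^ J ≤ x := by rw [hJ]; exact Nat.pow_log_le_self 2 hx0
  have hIJ : 2 ^ I ≤ J := by rw [hI]; exact Nat.pow_log_le_self 2 hJ0
  have hLI : 2 ^ L ≤ I := by rw [hL]; exact Nat.pow_log_le_self 2 hI0
  obtain ⟨P, hP⟩ : ∃ P : Finset ℕ, P = (Icc 1 (2 ^ J)).filter (fun q => q ∈ Q ∧ L < q) := ⟨_, rfl⟩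
  obtain ⟨K, hK⟩ : ∃ K : Finset ℕ, K = (Icc 1 L).filter (fun q => q ∈ Q) := ⟨_, rfl⟩
  have hPp : ∀ q ∈ P, q.Prime := fun q hq => by
    rw [hP, mem_filter] at hq
    exact hQ q hq.2.1
  have hPm : ∑ q ∈ P, (1 : ℝ) / q ≤ C := by
    refine le_trans ?_ hmass
    unfold mass3
    rw [← hJ, ← hI, ← hL, hP]
    refine sum_le_sum_of_subset_of_nonneg (fun q hq => ?_) fun q _ _ => by positivity
    rw [mem_filter, mem_Icc] at hq ⊢
    exact ⟨⟨hq.1.1, hq.1.2.trans hJx⟩, hq.2⟩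
  obtain ⟨T, hT⟩ : ∃ T, T = I / ρ := ⟨_, rfl⟩
  have hKc : K.card ≤ L / 2 + 1 := card_primes K L (fun q hq => by
    rw [hK, mem_filter, mem_Icc] at hq
    exact ⟨hQ q hq.2, hq.1.2⟩)
  have hTc : 2 ^ K.card + J₀ ≤ T := by
    rw [hT, Nat.le_div_iff_mul_le hρ0]
    have h1 := lnum M J₀ I L K.card hLI (hB ▸ hI1) hKc
    rw [hM, mul_assoc] at h1
    have h2 := Nat.le_of_mul_le_mul_left h1 (by norm_num)
    rw [mul_comm]
    exact h2
  obtain ⟨G, hG⟩ : ∃ G : Finset ℕ, G = Ico J₀ T := ⟨_, rfl⟩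
  have hcard : 2 ^ K.card ≤ G.card := by
    rw [hG, Nat.card_Ico]
    omega
  -- the assignment
  obtain ⟨s, hs⟩ : ∃ s : ℕ → Finset ℕ, ∀ S ∈ K.powerset, ∃ j ∈ G, s j = S := by
    have h1 : Fintype.card {S // S ∈ K.powerset} ≤ Fintype.card {j // j ∈ G} := by
      rw [Fintype.card_coe, Fintype.card_coe, card_powerset]
      exact hcard
    obtain ⟨e⟩ := Function.Embedding.nonempty_of_card_le h1
    have : Nonempty {S // S ∈ K.powerset} := ⟨⟨∅, empty_mem_powerset K⟩⟩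
    refine ⟨fun j => if h : j ∈ G then ((Function.invFun e ⟨j, h⟩ : {S // S ∈ K.powerset}) : Finset ℕ)
      else ∅, fun S hS => ⟨(e ⟨S, hS⟩ : ℕ), (e ⟨S, hS⟩).2, ?_⟩⟩
    simp only [dif_pos (e ⟨S, hS⟩).2]
    have h2 := Function.leftInverse_invFun e.injective ⟨S, hS⟩
    exact congrArg Subtype.val h2
  have hTI : 2 ^ (ρ * T) ≤ J := by
    refine le_trans (Nat.pow_le_pow_right (by norm_num) ?_) hIJ
    rw [hT]
    exact Nat.mul_div_le I ρ
  have hJ₀J : J₀ < J := by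
    have h1 : J₀ < T := by
      have : 0 < 2 ^ K.card := by positivity
      omega
    have h2 : T ≤ ρ * T := Nat.le_mul_of_pos_left T hρ0
    have h3 : ρ * T < 2 ^ (ρ * T) := Nat.lt_two_pow_self
    omega
  refine ⟨J, hJ₀J, fun n => if ∀ q ∈ P, ¬ q ∣ n then
    (((g n : ℤˣ) : ℤ) : ℝ) * fl (s (Nat.log 2 (Nat.log 2 n) / ρ)) n else 0, ?_, ?_⟩
  · intro n
    simp only
    split_ifs
    · rw [abs_mul, M6.unit_abs, one_mul]
      exact (M6.unit_abs _).le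
    · simp
  · intro ω
    obtain ⟨t, ht, hst⟩ := hs (K.filter (fun q => ω q = true)) (mem_powerset.2 (filter_subset _ _))
    rw [hG, mem_Ico] at ht
    obtain ⟨a, ha⟩ : ∃ a, a = 2 ^ (ρ * t) := ⟨_, rfl⟩
    obtain ⟨b, hb⟩ : ∃ b, b = 2 ^ (ρ * (t + 1)) := ⟨_, rfl⟩
    have hab : a < b := by
      rw [ha, hb]
      exact Nat.pow_lt_pow_right (by norm_num) (by
        rw [mul_add, mul_one]; omega)
    have hbJ : b ≤ J := by
      rw [hb]
      exact le_trans (Nat.pow_le_pow_right (by norm_num) (Nat.mul_le_mul_left ρ ht.2)) hTI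
    have hJa : J₀ ≤ a := by
      rw [ha]
      have h2 : t ≤ ρ * t := Nat.le_mul_of_pos_left t hρ0
      have h3 : ρ * t < 2 ^ (ρ * t) := Nat.lt_two_pow_self
      omega
    refine ⟨a, b, hJa, hab, hbJ, ?_⟩
    have h2ab : 2 * (a : ℝ) ≤ κ * b := by
      have e : (b : ℝ) = a * 2 ^ ρ := by
        rw [ha, hb]; push_cast; rw [mul_add, mul_one, pow_add]
      rw [e]
      have h0 : (0:ℝ) ≤ a := Nat.cast_nonneg _
      nlinarith [mul_le_mul_of_nonneg_left hρ2 h0]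
    have hss := super_sum P hPp C κ hPm hκ a b hab.le h2ab
    refine hss.trans ?_
    have e1 : ∑ n ∈ Ico (2 ^ a) (2 ^ b), (if ∀ q ∈ P, ¬ q ∣ n then
        (((g n : ℤˣ) : ℤ) : ℝ) * fl (s (Nat.log 2 (Nat.log 2 n) / ρ)) n else 0) / n *
          (((modif g Q ω n : ℤˣ) : ℤ) : ℝ) =
        ∑ n ∈ Ico (2 ^ a) (2 ^ b), (if ∀ q ∈ P, ¬ q ∣ n then (1 : ℝ) / n else 0) := by
      refine sum_congr rfl fun n hn => ?_
      rw [mem_Ico] at hn
      split_ifs with hfree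
      · have hn0 : 0 < n := lt_of_lt_of_le (by positivity) hn.1
        have hl1 : a ≤ Nat.log 2 n := Nat.le_log_of_pow_le (by norm_num) hn.1
        have hl2 : Nat.log 2 n < b := Nat.log_lt_of_lt_pow hn0.ne' hn.2
        have hln0 : Nat.log 2 n ≠ 0 := by
          have : 0 < a := by rw [ha]; positivity
          omega
        have hl3 : ρ * t ≤ Nat.log 2 (Nat.log 2 n) :=
          Nat.le_log_of_pow_le (by norm_num) (ha ▸ hl1)
        have hl4 : Nat.log 2 (Nat.log 2 n) < ρ * (t + 1) :=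
          Nat.log_lt_of_lt_pow hln0 (hb ▸ hl2)
        have hlog : Nat.log 2 (Nat.log 2 n) / ρ = t := by
          rw [Nat.div_eq_iff hρ0]
          constructor
          · rw [mul_comm]; exact hl3
          · have : t * ρ + ρ = ρ * (t + 1) := by ring
            omega
        rw [hlog, hst]
        rw [modif_free g Q hQ ω K (fun q hq => by
          rw [hK, mem_filter] at hq
          exact hq.2) n (fun q hq hqn => by
          rw [hK, mem_filter, mem_Icc]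
          refine ⟨⟨(hQ q hq).pos, ?_⟩, hq⟩
          by_contra hcon
          refine hfree q ?_ hqn
          rw [hP, mem_filter, mem_Icc]
          refine ⟨⟨(hQ q hq).pos, ?_⟩, hq, not_le.1 hcon⟩
          have h1 := Nat.le_of_dvd hn0 hqn
          have h2 : 2 ^ b ≤ 2 ^ J := Nat.pow_le_pow_right (by norm_num) hbJ
          omega)]
        unfold fl
        rw [Units.val_mul, Int.cast_mul]
        have h3 := unit_sq (g n)
        have h4 := unit_sq (flipU (K.filter (fun q => ω q = true)) n)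
        calc _ = ((((g n : ℤˣ) : ℤ) : ℝ) * (((g n : ℤˣ) : ℤ) : ℝ)) *
            ((((flipU (K.filter (fun q => ω q = true)) n : ℤˣ) : ℤ) : ℝ) *
              (((flipU (K.filter (fun q => ω q = true)) n : ℤˣ) : ℤ) : ℝ)) / n := by ring
          _ = 1 / n := by rw [h3, h4, mul_one]
      · simp
    rw [e1]
    exact le_abs_self _

/-- **the adversary** -/
theorem ladversary (g : ℕ → ℤˣ) (Q : Set ℕ) (hQ : ∀ q ∈ Q, q.Prime) (h : ¬ Heavy3 Q) :
    ∃ v : ℕ → ℝ, (∀ n, |v n| ≤ 1) ∧ ∀ ω : ℕ → Bool,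
      ¬ Tendsto (fun x : ℕ => (∑ n ∈ Icc 1 x, v n / n * (((modif g Q ω n : ℤˣ) : ℤ) : ℝ)) /
        Real.log x) atTop (nhds 0) := by
  obtain ⟨C, hC⟩ : ∃ C : ℝ, ∃ᶠ x : ℕ in atTop, mass3 Q x ≤ C := by
    unfold Heavy3 at h
    rw [tendsto_atTop] at h
    push Not at h
    obtain ⟨C, hC⟩ := h
    exact ⟨C, hC.mono fun x hx => hx.le⟩
  obtain ⟨κ, hκ⟩ : ∃ κ, κ = Real.exp (-(2 * C)) / 4 := ⟨_, rfl⟩
  choose Jn hJn u hu hw using lstage g Q hQ C κ hκ hC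
  have hκ0 : 0 < κ := by rw [hκ]; positivity
  obtain ⟨a, ha0, ha1⟩ : ∃ a : ℕ → ℕ, a 0 = 0 ∧ ∀ i, a (i + 1) = Jn (a i) :=
    ⟨fun i => Nat.rec 0 (fun _ b => Jn b) i, rfl, fun _ => rfl⟩
  have hmono : StrictMono a := strictMono_nat_of_lt_succ fun i => by
    rw [ha1]
    exact hJn _
  obtain ⟨ix, hix⟩ : ∃ ix : ℕ → ℕ, ∀ j, ix j = Nat.findGreatest (fun i => a i ≤ j) j :=
    ⟨_, fun _ => rfl⟩
  have hixe : ∀ i j, a i ≤ j → j < a (i + 1) → ix j = i := by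
    intro i j h1 h2
    rw [hix]
    apply le_antisymm
    · by_contra hcon
      push Not at hcon
      have h3 : a (Nat.findGreatest (fun i => a i ≤ j) j) ≤ j :=
        Nat.findGreatest_spec (P := fun i => a i ≤ j) (m := 0) (Nat.zero_le _)
          (by rw [ha0]; exact Nat.zero_le _)
      have h4 : a (i + 1) ≤ a (Nat.findGreatest (fun i => a i ≤ j) j) := hmono.monotone hcon
      omega
    · exact Nat.le_findGreatest (le_trans hmono.le_apply h1) h1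
  refine ⟨fun n => u (a (ix (Nat.log 2 n))) n, fun n => hu _ _, fun ω hT => ?_⟩
  obtain ⟨A, hA⟩ : ∃ A : ℕ → ℝ, ∀ x, A x = ∑ n ∈ Icc 1 x, u (a (ix (Nat.log 2 n))) n / n *
      (((modif g Q ω n : ℤˣ) : ℤ) : ℝ) := ⟨_, fun _ => rfl⟩
  have hT' : Tendsto (fun x : ℕ => A x / Real.log x) atTop (nhds 0) := by
    refine hT.congr fun x => ?_
    rw [hA]
  rw [Metric.tendsto_atTop] at hT'
  obtain ⟨N, hN⟩ := hT' (κ ^ 2 / 16) (by positivity)
  have hbd : ∀ x : ℕ, N ≤ x → 2 ≤ x → |A x| ≤ κ ^ 2 / 16 * Real.log x := by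
    intro x hx hx2
    have h1 := hN x hx
    have hlog : 0 < Real.log x := Real.log_pos (by exact_mod_cast hx2)
    rw [Real.dist_eq, sub_zero, abs_div, abs_of_pos hlog, div_lt_iff₀ hlog] at h1
    exact h1.le
  -- a late stage
  obtain ⟨α, b, hj0, hαb, hj1, hj2⟩ := hw (a (N + 2)) ω
  rw [← ha1] at hj1
  have hNj : N + 2 ≤ α := le_trans hmono.le_apply hj0
  have hblk : ∑ n ∈ Ico (2 ^ α) (2 ^ b), u (a (N + 2)) n / n *
      (((modif g Q ω n : ℤˣ) : ℤ) : ℝ) = A (2 ^ b - 1) - A (2 ^ α - 1) := by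
    have e1 : ∑ n ∈ Ico (2 ^ α) (2 ^ b), u (a (N + 2)) n / n *
        (((modif g Q ω n : ℤˣ) : ℤ) : ℝ) = ∑ n ∈ Ico (2 ^ α) (2 ^ b),
        u (a (ix (Nat.log 2 n))) n / n * (((modif g Q ω n : ℤˣ) : ℤ) : ℝ) := by
      refine sum_congr rfl fun n hn => ?_
      rw [mem_Ico] at hn
      have hn0 : 0 < n := lt_of_lt_of_le (by positivity) hn.1
      have hl1 : α ≤ Nat.log 2 n := Nat.le_log_of_pow_le (by norm_num) hn.1
      have hl2 : Nat.log 2 n < b := Nat.log_lt_of_lt_pow hn0.ne' hn.2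
      rw [hixe (N + 2) (Nat.log 2 n) (hj0.trans hl1) (lt_of_lt_of_le hl2 hj1)]
    rw [e1, hA, hA]
    have hp1 : 1 ≤ 2 ^ α := Nat.one_le_two_pow
    have hp2 : 2 ^ α ≤ 2 ^ b := Nat.pow_le_pow_right (by norm_num) hαb.le
    have e2 : Icc 1 (2 ^ b - 1) = Ico 1 (2 ^ b) := by
      ext n; rw [mem_Icc, mem_Ico]; omega
    have e3 : Icc 1 (2 ^ α - 1) = Ico 1 (2 ^ α) := by
      ext n; rw [mem_Icc, mem_Ico]; omega
    rw [e2, e3, ← sum_Ico_consecutive _ hp1 hp2]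
    ring
  rw [hblk] at hj2
  have hlt : α < 2 ^ α := Nat.lt_two_pow_self
  have hp2 : 2 ^ α ≤ 2 ^ b := Nat.pow_le_pow_right (by norm_num) hαb.le
  have h1 := hbd (2 ^ b - 1) (by omega) (by omega)
  have h2 := hbd (2 ^ α - 1) (by omega) (by omega)
  have hlogle : ∀ c : ℕ, c ≤ b → 2 ≤ 2 ^ c - 1 → Real.log ((2 ^ c - 1 : ℕ) : ℝ) ≤ b := by
    intro c hc h2c
    have h3 : Real.log ((2 ^ c - 1 : ℕ) : ℝ) ≤ Real.log ((2:ℝ) ^ c) := by
      apply Real.log_le_log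
      · have : 0 < 2 ^ c - 1 := by omega
        exact_mod_cast this
      · have : 2 ^ c - 1 ≤ 2 ^ c := Nat.sub_le _ _
        exact_mod_cast this
    rw [Real.log_pow] at h3
    have h4 : Real.log 2 ≤ 1 := by
      have := Real.log_two_lt_d9
      linarith
    have h5 : (c:ℝ) ≤ b := by exact_mod_cast hc
    have h6 : (0:ℝ) ≤ c := Nat.cast_nonneg _
    have h7 : (c:ℝ) * Real.log 2 ≤ c * 1 := mul_le_mul_of_nonneg_left h4 h6
    linarith
  have h3 := hlogle b le_rfl (by omega)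
  have h4 := hlogle α hαb.le (by omega)
  have h5 := abs_sub (A (2 ^ b - 1)) (A (2 ^ α - 1))
  have h6 : (0:ℝ) < b := by
    have : 0 < b := by omega
    exact_mod_cast this
  have hk2 : 0 < κ ^ 2 / 16 := by positivity
  have h7 := mul_le_mul_of_nonneg_left h3 hk2.le
  have h8 := mul_le_mul_of_nonneg_left h4 hk2.le
  nlinarith [mul_pos hk2 h6]

end Pool.Agent.U463.RS
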