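import Pool.Agent.U463.RS.Suff

/-!
# Logarithmic averages: almost sure cancellation under the sharp condition
-/

set_option autoImplicit false

namespace Pool.Agent.U463.RS

open Finset Polynomial MeasureTheory Filter Pool.Agent.H220M
open scoped ENNReal

open Classical in
/-- the sum of the reciprocals of the members of `A` in the interval `(log log log x, x]` -/
noncomputable def mass3 (A : Set ℕ) (x : ℕ) : ℝ :=
  ∑ q ∈ (Icc 1 x).filter (fun q => q ∈ A ∧ Nat.log 2 (Nat.log 2 (Nat.log 2 x)) < q), (1 : ℝ) / q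

/-- the mass in the interval `(log log log x, x]` tends to infinity -/
def Heavy3 (A : Set ℕ) : Prop := Tendsto (mass3 A) atTop atTop

theorem heavy3_mono (A A' : Set ℕ) (N : ℕ) (h : ∀ q ∈ A, N < q → q ∈ A')
    (hA : Heavy3 A) : Heavy3 A' := by
  classical
  unfold Heavy3 at *
  refine tendsto_atTop_mono' _ ?_ hA
  have h2 : ∀ᶠ x : ℕ in atTop, N ≤ Nat.log 2 (Nat.log 2 (Nat.log 2 x)) := by
    filter_upwards [eventually_ge_atTop (2 ^ (2 ^ (2 ^ N)))] with x hx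
    exact Nat.le_log_of_pow_le (by norm_num) (Nat.le_log_of_pow_le (by norm_num)
      (Nat.le_log_of_pow_le (by norm_num) hx))
  filter_upwards [h2] with x hx
  unfold mass3
  refine sum_le_sum_of_subset_of_nonneg (fun q hq => ?_) fun q _ _ => by positivity
  rw [mem_filter] at hq ⊢
  exact ⟨hq.1, h q hq.2.1 (lt_of_le_of_lt hx hq.2.2), hq.2.2⟩

open Classical in
/-- the cut can be moved -/
theorem heavy3_cut (A : Set ℕ) (hA : Heavy3 A) (D K : ℕ) (B : ℝ) :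
    ∀ᶠ i : ℕ in atTop, ∀ j : ℕ, 2 ^ i ≤ 2 ^ D * j → B ≤ ∑ q ∈ (Icc 1 (2 ^ (j / 4))).filter
      (fun q => q ∈ A ∧ K * (Nat.log 2 i + 1) < q), (1 : ℝ) / q := by
  have h0 : Tendsto (fun i : ℕ => i - (D + 2)) atTop atTop := tendsto_sub_atTop_nat _
  have h1 : Tendsto (fun i : ℕ => 2 ^ (2 ^ (i - (D + 2)))) atTop atTop :=
    (tendsto_pow_atTop_atTop_of_one_lt (by norm_num : (1:ℕ) < 2)).comp
      ((tendsto_pow_atTop_atTop_of_one_lt (by norm_num : (1:ℕ) < 2)).comp h0)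
  have h2 := (hA.comp h1).eventually_ge_atTop (B + 2 * K)
  filter_upwards [h2, eventually_ge_atTop (2 * (D + 2) + 2)] with i hi hiD j hij
  have hi' : B + 2 * K ≤ mass3 A (2 ^ (2 ^ (i - (D + 2)))) := hi
  unfold mass3 at hi'
  rw [Nat.log_pow (by norm_num), Nat.log_pow (by norm_num)] at hi'
  obtain ⟨L, hL⟩ : ∃ L, Nat.log 2 i = L + 1 := by
    refine ⟨Nat.log 2 i - 1, ?_⟩
    have : 1 ≤ Nat.log 2 i := Nat.le_log_of_pow_le (by norm_num) (by omega)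
    omega
  have hL2 : L ≤ Nat.log 2 (i - (D + 2)) := by
    have h3 : Nat.log 2 (i / 2) = Nat.log 2 i - 1 := Nat.log_div_base 2 i
    have h4 : Nat.log 2 (i / 2) ≤ Nat.log 2 (i - (D + 2)) := Nat.log_mono_right (by omega)
    omega
  have hz : 2 ^ (2 ^ (i - (D + 2))) ≤ 2 ^ (j / 4) := by
    apply Nat.pow_le_pow_right (by norm_num)
    rw [Nat.le_div_iff_mul_le (by norm_num)]
    have e1 : 2 ^ i = 2 ^ D * (2 ^ (i - (D + 2)) * 4) := by
      have : i = D + ((i - (D + 2)) + 2) := by omega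
      conv_lhs => rw [this]
      rw [pow_add, pow_add]
      norm_num
    rw [e1] at hij
    exact Nat.le_of_mul_le_mul_left hij (by positivity)
  rw [hL]
  -- split
  have h3 : ∑ q ∈ (Icc 1 (2 ^ (2 ^ (i - (D + 2))))).filter
        (fun q => q ∈ A ∧ Nat.log 2 (i - (D + 2)) < q), (1 : ℝ) / q ≤
      ∑ q ∈ (Icc 1 (2 ^ (j / 4))).filter (fun q => q ∈ A ∧ K * (L + 1 + 1) < q), (1 : ℝ) / q +
      ∑ q ∈ Ioc L (K * (L + 2)), (1 : ℝ) / q := by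
    rw [← sum_filter_add_sum_filter_not ((Icc 1 (2 ^ (2 ^ (i - (D + 2))))).filter
      (fun q => q ∈ A ∧ Nat.log 2 (i - (D + 2)) < q)) (fun q => K * (L + 1 + 1) < q)]
    refine add_le_add ?_ ?_
    · refine sum_le_sum_of_subset_of_nonneg (fun q hq => ?_) fun q _ _ => by positivity
      rw [mem_filter, mem_filter, mem_Icc] at hq
      rw [mem_filter, mem_Icc]
      exact ⟨⟨hq.1.1.1, hq.1.1.2.trans hz⟩, hq.1.2.1, hq.2⟩
    · refine sum_le_sum_of_subset_of_nonneg (fun q hq => ?_) fun q _ _ => by positivity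
      rw [mem_filter, mem_filter] at hq
      rw [mem_Ioc]
      exact ⟨lt_of_le_of_lt hL2 hq.1.2.2, not_lt.1 hq.2⟩
  have h4 : ∑ q ∈ Ioc L (K * (L + 2)), (1 : ℝ) / q ≤ 2 * K := by
    have h5 : ∀ q ∈ Ioc L (K * (L + 2)), (1 : ℝ) / q ≤ 1 / (L + 1) := by
      intro q hq
      apply one_div_le_one_div_of_le (by positivity)
      have := (mem_Ioc.1 hq).1
      have h6 : L + 1 ≤ q := by omega
      exact_mod_cast h6
    refine (sum_le_sum h5).trans ?_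
    rw [sum_const, Nat.card_Ioc, nsmul_eq_mul]
    have h6 : ((K * (L + 2) - L : ℕ) : ℝ) ≤ K * (L + 2) := by
      have : K * (L + 2) - L ≤ K * (L + 2) := Nat.sub_le _ _
      exact_mod_cast this
    have h7 : (0:ℝ) < (L:ℝ) + 1 := by positivity
    rw [mul_one_div, div_le_iff₀ h7]
    have h8 : (0:ℝ) ≤ K := Nat.cast_nonneg _
    have h9 : (0:ℝ) ≤ L := Nat.cast_nonneg _
    nlinarith [mul_nonneg h8 h9]
  linarith

/-- the weights on the dyadic block of `j` -/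
noncomputable def bw (w : ℕ → ℝ) (j m : ℕ) : ℝ :=
  if 2 ^ j ≤ m + 1 ∧ m + 1 < 2 ^ (j + 1) then w m * (2 ^ j / ((m : ℝ) + 1)) else 0

theorem bw_le (w : ℕ → ℝ) (hw : ∀ m, |w m| ≤ 1) (j m : ℕ) : |bw w j m| ≤ 1 := by
  unfold bw
  split_ifs with h
  · have h1 : (2:ℝ) ^ j ≤ (m:ℝ) + 1 := by exact_mod_cast h.1
    have h0 : (0:ℝ) < (m:ℝ) + 1 := by positivity
    rw [abs_mul, abs_div, abs_of_pos h0, abs_of_pos (by positivity : (0:ℝ) < 2 ^ j)]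
    have h2 : (2:ℝ) ^ j / ((m:ℝ) + 1) ≤ 1 := (div_le_one h0).2 h1
    have h3 : 0 ≤ (2:ℝ) ^ j / ((m:ℝ) + 1) := by positivity
    calc |w m| * (2 ^ j / ((m:ℝ) + 1)) ≤ 1 * 1 := mul_le_mul (hw m) h2 h3 zero_le_one
      _ = 1 := one_mul 1
  · simp

/-- the logarithmic sum over the block of `j` -/
noncomputable def bs (a : ℕ → ℝ) (j : ℕ) : ℝ :=
  ∑ m ∈ Ico (2 ^ j - 1) (2 ^ (j + 1) - 1), a m / ((m : ℝ) + 1)

theorem bs_eq (w : ℕ → ℝ) (u : ℕ → ℝ) (j : ℕ) :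
    ∑ m ∈ range (2 ^ j * 2), bw w j m * u m = 2 ^ j * bs (fun m => w m * u m) j := by
  have hp : 1 ≤ 2 ^ j := Nat.one_le_two_pow
  have h1 : Ico (2 ^ j - 1) (2 ^ (j + 1) - 1) ⊆ range (2 ^ j * 2) := by
    intro m hm
    rw [mem_Ico] at hm
    rw [mem_range]
    rw [pow_succ] at hm
    omega
  rw [← sum_subset h1 (fun m _ hm => by
    have : bw w j m = 0 := by
      unfold bw
      rw [if_neg]
      rintro ⟨h2, h3⟩
      apply hm
      rw [mem_Ico]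
      omega
    rw [this, zero_mul])]
  unfold bs
  rw [mul_sum]
  refine sum_congr rfl fun m hm => ?_
  rw [mem_Ico] at hm
  unfold bw
  rw [if_pos ⟨by omega, by omega⟩]
  ring

theorem bs_le (a : ℕ → ℝ) (ha : ∀ m, |a m| ≤ 1) (j : ℕ) : |bs a j| ≤ 1 := by
  unfold bs
  refine (abs_sum_le_sum_abs _ _).trans ?_
  have h1 : ∀ m ∈ Ico (2 ^ j - 1) (2 ^ (j + 1) - 1), |a m / ((m : ℝ) + 1)| ≤ 1 / 2 ^ j := by
    intro m hm
    rw [mem_Ico] at hm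
    have h0 : (0:ℝ) < (m:ℝ) + 1 := by positivity
    rw [abs_div, abs_of_pos h0]
    have h2 : 2 ^ j ≤ m + 1 := by omega
    have h3 : (2:ℝ) ^ j ≤ (m:ℝ) + 1 := by exact_mod_cast h2
    exact div_le_div₀ zero_le_one (ha m) (by positivity) h3
  refine (sum_le_sum h1).trans ?_
  rw [sum_const, Nat.card_Ico, nsmul_eq_mul]
  have h2 : 2 ^ (j + 1) - 1 - (2 ^ j - 1) = 2 ^ j := by
    have : 1 ≤ 2 ^ j := Nat.one_le_two_pow
    rw [pow_succ]
    omega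
  rw [h2]
  push_cast
  rw [mul_one_div, div_self (by positivity)]

/-- the logarithmic sums -/
theorem log_sum (a : ℕ → ℝ) (J : ℕ) :
    ∑ m ∈ range (2 ^ J - 1), a m / ((m : ℝ) + 1) = ∑ j ∈ range J, bs a j := by
  induction J with
  | zero => simp
  | succ J ih =>
    rw [sum_range_succ, ← ih]
    unfold bs
    rw [range_eq_Ico, range_eq_Ico, sum_Ico_consecutive _ (Nat.zero_le _)]
    have : 2 ^ J ≤ 2 ^ (J + 1) := Nat.pow_le_pow_right (by norm_num) (Nat.le_succ J)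
    omega

open Classical in
/-- one block -/
theorem lscale (g : ℕ → ℤˣ) (Q : Set ℕ) (hQ : ∀ q ∈ Q, q.Prime) (F : ℤ[X]) (A : Set ℕ)
    (hA : ∀ q ∈ A, q ∈ Q ∧ SimpleRoot F q) (w : ℕ → ℝ)
    (hw : ∀ m, |w m| ≤ 1) (η : ℝ) (hη : 0 < η) (K : ℕ) (hK1 : 1 ≤ K)
    (hK : 64 * (F.natDegree : ℝ) ^ 2 / η ^ 2 ≤ K)
    (i j : ℕ) (hi : 1 ≤ i)
    (hS : 2 + 4 * ((F.natDegree : ℝ) + 2) ^ 2 / η ≤
      ∑ q ∈ (Icc 1 (2 ^ (j / 4))).filter (fun q => q ∈ A ∧ K * (Nat.log 2 i + 1) < q),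
        (1 : ℝ) / q) :
    coins {ω : ℕ → Bool | 2 * η < |bs (fun m => w m *
      (((modif g Q ω ((F.eval ((m : ℤ) + 1)).natAbs) : ℤˣ) : ℤ) : ℝ)) j|}
      ≤ ENNReal.ofReal (2 * (1 / (i : ℝ) ^ 2)) := by
  obtain ⟨Q₀, hQ₀⟩ : ∃ Q₀ : Finset ℕ, Q₀ = (Icc 1 (2 ^ (j / 4))).filter
    (fun q => q ∈ A ∧ K * (Nat.log 2 i + 1) < q) := ⟨_, rfl⟩
  rw [← hQ₀] at hS
  have hmem : ∀ q ∈ Q₀, q ∈ Q ∧ SimpleRoot F q ∧ K * (Nat.log 2 i + 1) < q ∧ q ≤ 2 ^ (j / 4) := by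
    intro q hq
    rw [hQ₀, Finset.mem_filter, Finset.mem_Icc] at hq
    exact ⟨(hA q hq.2.1).1, (hA q hq.2.1).2, hq.2.2, hq.1.2⟩
  have hz : (2 ^ (j / 4)) ^ 4 ≤ 2 ^ j * 2 := by
    rw [← pow_mul]
    calc 2 ^ (j / 4 * 4) ≤ 2 ^ j := Nat.pow_le_pow_right (by norm_num) (Nat.div_mul_le_self j 4)
      _ ≤ 2 ^ j * 2 := Nat.le_mul_of_pos_right _ (by norm_num)
  have hy : 1 ≤ K * (Nat.log 2 i + 1) := Nat.mul_pos hK1 (Nat.succ_pos _)
  have hne : Q₀.Nonempty := by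
    rw [nonempty_iff_ne_empty]
    rintro rfl
    rw [sum_empty] at hS
    have : 0 < 4 * ((F.natDegree : ℝ) + 2) ^ 2 / η := by positivity
    linarith
  obtain ⟨q₀, hq₀⟩ := hne
  have hd1 : 1 ≤ F.natDegree := (tM4a F q₀ (hQ q₀ (hmem q₀ hq₀).1) (hmem q₀ hq₀).2.1).1
  have hd0 : (0:ℝ) < F.natDegree := by exact_mod_cast hd1
  have hexp : Real.exp (-(η ^ 2 * ((K * (Nat.log 2 i + 1) : ℕ) : ℝ) /
      (32 * (F.natDegree : ℝ) ^ 2))) ≤ 1 / (i : ℝ) ^ 2 := by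
    refine le_trans (Real.exp_le_exp.2 ?_) (M6.exp_le i hi)
    apply neg_le_neg
    rw [div_le_iff₀ (by positivity)] at hK
    rw [le_div_iff₀ (by positivity)]
    push_cast
    have h1 : (0:ℝ) ≤ (Nat.log 2 i : ℝ) + 1 := by positivity
    nlinarith [mul_le_mul_of_nonneg_right hK h1]
  have hset : {ω : ℕ → Bool | 2 * η < |bs (fun m => w m *
      (((modif g Q ω ((F.eval ((m : ℤ) + 1)).natAbs) : ℤˣ) : ℤ) : ℝ)) j|} =
      {ω : ℕ → Bool | η * ((2 ^ j * 2 : ℕ) : ℝ) < |∑ m ∈ range (2 ^ j * 2), bw w j m *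
      (((modif g Q ω ((F.eval ((m : ℤ) + 1)).natAbs) : ℤˣ) : ℤ) : ℝ)|} := by
    ext ω
    simp only [Set.mem_ofPred_eq]
    rw [bs_eq w (fun m => (((modif g Q ω ((F.eval ((m : ℤ) + 1)).natAbs) : ℤˣ) : ℤ) : ℝ)) j,
      abs_mul, abs_of_pos (by positivity : (0:ℝ) < 2 ^ j)]
    push_cast
    have hp : (0:ℝ) < 2 ^ j := by positivity
    constructor
    · intro h
      nlinarith [mul_lt_mul_of_pos_left h hp]
    · intro h
      have e : η * (2 ^ j * 2) = 2 ^ j * (2 * η) := by ring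
      rw [e] at h
      exact lt_of_mul_lt_mul_left h hp.le
  rw [hset]
  refine tC0.2 g Q Q₀ (fun q hq => ⟨(hmem q hq).1, hQ q (hmem q hq).1⟩)
    (fun h => η * ((2 ^ j * 2 : ℕ) : ℝ) < |∑ m ∈ range (2 ^ j * 2), bw w j m *
      (((h ((F.eval ((m : ℤ) + 1)).natAbs) : ℤˣ) : ℤ) : ℝ)|)
    (tM6b g Q F (bw w j) (2 ^ j * 2) (η * ((2 ^ j * 2 : ℕ) : ℝ))) _ (by positivity) ?_
  intro g'
  have hcount := bad_count F η Q₀ (K * (Nat.log 2 i + 1)) (2 ^ (j / 4)) (2 ^ j * 2) hη hy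
    (fun q hq => ⟨hQ q (hmem q hq).1, (hmem q hq).2.1, (hmem q hq).2.2.1, (hmem q hq).2.2.2⟩)
    hz hS
    (fun m => bw w j m * (((g' ((F.eval ((m : ℤ) + 1)).natAbs) : ℤˣ) : ℤ) : ℝ))
    (fun m => by
      show |bw w j m * (((g' ((F.eval ((m : ℤ) + 1)).natAbs) : ℤˣ) : ℤ) : ℝ)| ≤ 1
      rw [abs_mul, M6.unit_abs, mul_one]
      exact bw_le w hw j m)
  refine le_trans (le_of_eq ?_) (hcount.trans ?_)
  · congr 2
    ext S
    simp only [Finset.mem_filter]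
    have e : ∀ m : ℕ, bw w j m * (((g' ((F.eval ((m : ℤ) + 1)).natAbs) *
        flipU S ((F.eval ((m : ℤ) + 1)).natAbs) : ℤˣ) : ℤ) : ℝ) =
        bw w j m * (((g' ((F.eval ((m : ℤ) + 1)).natAbs) : ℤˣ) : ℤ) : ℝ) *
        (((flipU S ((F.eval ((m : ℤ) + 1)).natAbs) : ℤˣ) : ℤ) : ℝ) := by
      intro m
      rw [Units.val_mul, Int.cast_mul, mul_assoc]
    rw [Finset.sum_congr rfl (fun m _ => e m)]
  · have h1 : (0:ℝ) < 2 ^ Q₀.card := by positivity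
    have h2 := mul_le_mul_of_nonneg_left hexp h1.le
    linarith

end Pool.Agent.U463.RS
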